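import Pool.Agent.K1H2.BI.Stm

/-!
Project BI: deviations from cardinalities.
-/

set_option autoImplicit false

namespace Pool.Agent.K1H29.BI

open Filter Topology Pool.Agent.K1H2.BI

theorem rad_nonneg (t : ℕ) : 0 ≤ rad t := by
  unfold rad
  positivity

theorem rad_cube (t : ℕ) : 4 / 3 * Real.pi * rad t ^ 3 = t := by
  have h : rad t ^ 3 = 3 * t / (4 * Real.pi) := by
    unfold rad
    rw [← Real.rpow_natCast, ← Real.rpow_mul (by positivity)]
    norm_num
  rw [h]
  have := Real.pi_pos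
  field_simp

theorem rad_tendsto : Tendsto rad atTop atTop := by
  have h1 : Tendsto (fun t : ℕ => 3 * (t : ℝ) / (4 * Real.pi)) atTop atTop := by
    have h2 : (fun t : ℕ => 3 * (t : ℝ) / (4 * Real.pi)) = fun t : ℕ => 3 / (4 * Real.pi) * (t : ℝ) := by
      ext t; ring
    rw [h2]
    exact tendsto_natCast_atTop_atTop.const_mul_atTop (by positivity)
  exact (tendsto_rpow_atTop (by norm_num : (0 : ℝ) < 1 / 3)).comp h1

/-- the power `5/6` of `t` is at least `r² √r` -/
theorem pow_ge (t : ℕ) : rad t ^ 2 * Real.sqrt (rad t) ≤ (t : ℝ) ^ (5 / 6 : ℝ) := by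
  have hr := rad_nonneg t
  have h1 : rad t ^ 3 ≤ t := by
    have h2 := rad_cube t
    have h3 : (1 : ℝ) ≤ 4 / 3 * Real.pi := by
      have := Real.pi_gt_three
      linarith
    have h4 : 0 ≤ rad t ^ 3 := by positivity
    nlinarith
  have h5 : (rad t ^ 3) ^ (5 / 6 : ℝ) ≤ (t : ℝ) ^ (5 / 6 : ℝ) :=
    Real.rpow_le_rpow (by positivity) h1 (by norm_num)
  refine le_trans (le_of_eq ?_) h5
  rw [Real.sqrt_eq_rpow, ← Real.rpow_natCast, ← Real.rpow_natCast, ← Real.rpow_mul hr]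
  rcases hr.eq_or_lt with h | h
  · rw [← h, Real.zero_rpow (by norm_num), Real.zero_rpow (by norm_num), Real.zero_rpow (by norm_num)]
    ring
  · rw [← Real.rpow_add h]
    norm_num

theorem ev_big (K : ℝ) : ∀ᶠ t : ℕ in atTop, |K| + 2 ≤ Real.sqrt (rad t) := by
  filter_upwards [rad_tendsto.eventually_ge_atTop ((|K| + 2) ^ 2)] with t ht
  exact Real.le_sqrt_of_sq_le ht

theorem cube_up (r a : ℝ) (ha : 0 ≤ a) (har : a ≤ r) : (r + a) ^ 3 ≤ r ^ 3 + 7 * (r ^ 2 * a) := by
  have hr : 0 ≤ r := ha.trans har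
  have h1 : a ^ 2 ≤ r * a := by
    rw [sq]
    exact mul_le_mul_of_nonneg_right har ha
  have h2 : r * a ^ 2 ≤ r ^ 2 * a := by
    have := mul_le_mul_of_nonneg_left h1 hr
    linarith [this, (by ring : r * (r * a) = r ^ 2 * a)]
  have h3 : a ^ 3 ≤ r ^ 2 * a := by
    have h4 : a * a ^ 2 ≤ r * a ^ 2 := mul_le_mul_of_nonneg_right har (by positivity)
    have h5 : a * a ^ 2 = a ^ 3 := by ring
    linarith
  have h6 : (r + a) ^ 3 = r ^ 3 + 3 * (r ^ 2 * a) + 3 * (r * a ^ 2) + a ^ 3 := by ring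
  linarith

theorem cube_down (r a : ℝ) (ha : 0 ≤ a) (har : a ≤ r) : r ^ 3 - 3 * r ^ 2 * a ≤ (r - a) ^ 3 := by
  have h7 : 0 ≤ a ^ 2 * (3 * r - a) := by
    apply mul_nonneg (by positivity)
    linarith
  have h6 : (r - a) ^ 3 = r ^ 3 - 3 * r ^ 2 * a + a ^ 2 * (3 * r - a) := by ring
  linarith

theorem part1 (hL1 : ∀ (A : Finset Site) (ρ : ℝ), 1 ≤ ρ → (∀ z : Site, len z < ρ → z ∈ A) →
    4 / 3 * Real.pi * (ρ - 1) ^ 3 ≤ A.card) (K : ℝ) :
    ∃ K' : ℝ, 0 < K' ∧ ∀ᶠ t : ℕ in atTop, ∀ A : Finset Site,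
    (A.card : ℝ) ≤ t - K' * (t : ℝ) ^ (5 / 6 : ℝ) → K * Real.sqrt (rad t) ≤ devI A t := by
  · refine ⟨4 * Real.pi * (|K| + 1) + 1, by positivity, ?_⟩
    filter_upwards [ev_big K] with t ht A hA
    set r := rad t with hr
    have hr0 : 0 ≤ r := rad_nonneg t
    set q := Real.sqrt r with hq
    have hq2 : q ^ 2 = r := Real.sq_sqrt hr0
    have hK : K ≤ |K| := le_abs_self K
    have hK0 : 0 ≤ |K| := abs_nonneg K
    refine le_csInf ⟨r, hr0, fun z hz => ?_⟩ ?_
    · exfalso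
      have : 0 ≤ len z := Real.sqrt_nonneg _
      linarith
    · rintro δ ⟨hδ0, hδ⟩
      by_contra hlt
      push Not at hlt
      have h1 : r - δ ≥ r - |K| * q := by nlinarith
      have h2 : 1 ≤ r - |K| * q := by nlinarith
      have h3 := hL1 A (r - |K| * q) h2 (fun z hz => hδ z (lt_of_lt_of_le hz h1))
      have h4 := pow_ge t
      rw [← hr, ← hq] at h4
      have h5 : 4 / 3 * Real.pi * r ^ 3 = t := rad_cube t
      have hpi := Real.pi_pos
      have hq1 : 1 ≤ q := by linarith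
      -- a = |K| q + 1
      set a := |K| * q + 1 with ha
      have ha0 : 0 ≤ a := by positivity
      have har : a ≤ r := by nlinarith
      have h6 : r ^ 3 - 3 * r ^ 2 * a ≤ (r - |K| * q - 1) ^ 3 := by
        have h6' : r - |K| * q - 1 = r - a := by rw [ha]; ring
        rw [h6']
        exact cube_down r a ha0 har
      have h8 : a ≤ (|K| + 1) * q := by rw [ha]; nlinarith
      have h9 : (t : ℝ) - 4 * Real.pi * (r ^ 2 * a) ≤ A.card := by
        have : 4 / 3 * Real.pi * (r ^ 3 - 3 * r ^ 2 * a) ≤ A.card :=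
          le_trans (mul_le_mul_of_nonneg_left h6 (by positivity)) h3
        nlinarith
      have h10 : 4 * Real.pi * (r ^ 2 * a) ≤ 4 * Real.pi * (|K| + 1) * (r ^ 2 * q) := by
        have : r ^ 2 * a ≤ r ^ 2 * ((|K| + 1) * q) := mul_le_mul_of_nonneg_left h8 (by positivity)
        nlinarith
      have h11 : (4 * Real.pi * (|K| + 1) + 1) * (r ^ 2 * q) ≤
          (4 * Real.pi * (|K| + 1) + 1) * (t : ℝ) ^ (5 / 6 : ℝ) :=
        mul_le_mul_of_nonneg_left h4 (by positivity)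
      have hrpos : 0 < r := by nlinarith
      have h12 : 0 < r ^ 2 * q := by positivity
      nlinarith

theorem part2 (hL2 : ∀ (A : Finset Site) (ρ : ℝ), 0 ≤ ρ → (∀ z ∈ A, len z < ρ) →
    (A.card : ℝ) ≤ 4 / 3 * Real.pi * (ρ + 1) ^ 3) (K : ℝ) :
    ∃ K' : ℝ, 0 < K' ∧ ∀ᶠ t : ℕ in atTop, ∀ A : Finset Site,
    (t : ℝ) + K' * (t : ℝ) ^ (5 / 6 : ℝ) ≤ A.card → K * Real.sqrt (rad t) ≤ devO A t := by
  · refine ⟨28 / 3 * Real.pi * (|K| + 1) + 1, by positivity, ?_⟩
    filter_upwards [ev_big K] with t ht A hA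
    set r := rad t with hr
    have hr0 : 0 ≤ r := rad_nonneg t
    set q := Real.sqrt r with hq
    have hq2 : q ^ 2 = r := Real.sq_sqrt hr0
    have hK : K ≤ |K| := le_abs_self K
    have hK0 : 0 ≤ |K| := abs_nonneg K
    refine le_csInf ?_ ?_
    · refine ⟨∑ z ∈ A, len z + 1, ?_, fun z hz => ?_⟩
      · have : 0 ≤ ∑ z ∈ A, len z := Finset.sum_nonneg fun z _ => Real.sqrt_nonneg _
        linarith
      · have : len z ≤ ∑ z ∈ A, len z :=
          Finset.single_le_sum (f := len) (fun z _ => Real.sqrt_nonneg _) hz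
        linarith
    · rintro δ ⟨hδ0, hδ⟩
      by_contra hlt
      push Not at hlt
      have h1 : r + δ ≤ r + |K| * q := by nlinarith
      have h2 : 0 ≤ r + |K| * q := by positivity
      have h3 := hL2 A (r + |K| * q) h2 (fun z hz => lt_of_lt_of_le (hδ z hz) h1)
      have h4 := pow_ge t
      rw [← hr, ← hq] at h4
      have h5 : 4 / 3 * Real.pi * r ^ 3 = t := rad_cube t
      have hpi := Real.pi_pos
      have hq1 : 1 ≤ q := by linarith
      set a := |K| * q + 1 with ha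
      have ha0 : 0 ≤ a := by positivity
      have har : a ≤ r := by nlinarith
      have h6 : (r + |K| * q + 1) ^ 3 ≤ r ^ 3 + 7 * (r ^ 2 * a) := by
        have h6' : r + |K| * q + 1 = r + a := by rw [ha]; ring
        rw [h6']
        exact cube_up r a ha0 har
      have h8 : a ≤ (|K| + 1) * q := by rw [ha]; nlinarith
      have h9 : (A.card : ℝ) ≤ t + 28 / 3 * Real.pi * (r ^ 2 * a) := by
        have : (A.card : ℝ) ≤ 4 / 3 * Real.pi * (r ^ 3 + 7 * (r ^ 2 * a)) :=
          le_trans h3 (mul_le_mul_of_nonneg_left h6 (by positivity))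
        nlinarith
      have h10 : 28 / 3 * Real.pi * (r ^ 2 * a) ≤ 28 / 3 * Real.pi * (|K| + 1) * (r ^ 2 * q) := by
        have : r ^ 2 * a ≤ r ^ 2 * ((|K| + 1) * q) := mul_le_mul_of_nonneg_left h8 (by positivity)
        nlinarith
      have h11 : (28 / 3 * Real.pi * (|K| + 1) + 1) * (r ^ 2 * q) ≤
          (28 / 3 * Real.pi * (|K| + 1) + 1) * (t : ℝ) ^ (5 / 6 : ℝ) :=
        mul_le_mul_of_nonneg_left h4 (by positivity)
      have hrpos : 0 < r := by nlinarith
      have h12 : 0 < r ^ 2 * q := by positivity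
      nlinarith

theorem t_DEV (hL : S_LAT) : S_DEV := by
  refine ⟨fun K => part1 hL.1 K, fun K => part2 hL.2 K, ?_⟩
  · rintro t A ⟨z, hz, hzr⟩
    refine le_csInf ?_ ?_
    · refine ⟨∑ z ∈ A, len z + 1, ?_, fun z hz => ?_⟩
      · have : 0 ≤ ∑ z ∈ A, len z := Finset.sum_nonneg fun z _ => Real.sqrt_nonneg _
        linarith
      · have h1 : len z ≤ ∑ z ∈ A, len z :=
          Finset.single_le_sum (f := len) (fun z _ => Real.sqrt_nonneg _) hz
        have := rad_nonneg t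
        linarith
    · rintro δ ⟨hδ0, hδ⟩
      have := hδ z hz
      linarith

end Pool.Agent.K1H29.BI
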