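import Pool.Agent.K1H2.BI.Stm2
import Pool.Agent.K1H29.BI.Dev

/-!
Project BI: sets close to a ball.
-/

set_option autoImplicit false

namespace Pool.Agent.K1H29.BI

open Filter Topology Pool.Agent.K1H2.BI

theorem nsq_nonneg (z : Site) : 0 ≤ nsq z := Finset.sum_nonneg fun i _ => sq_nonneg _

theorem len_nonneg (z : Site) : 0 ≤ len z := Real.sqrt_nonneg _

theorem len_sq (z : Site) : len z ^ 2 = nsq z := Real.sq_sqrt (nsq_nonneg z)

theorem abs_le_len (z : Site) (i : Fin 3) : |(z i : ℝ)| ≤ len z := by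
  unfold len
  rw [← Real.sqrt_sq_eq_abs]
  exact Real.sqrt_le_sqrt (Finset.single_le_sum (f := fun i => (z i : ℝ) ^ 2)
    (fun i _ => sq_nonneg _) (Finset.mem_univ i))

open Classical in
/-- the lattice points of a ball -/
noncomputable def bal (ρ : ℝ) : Finset Site :=
  (Finset.Icc (fun _ => -⌈ρ⌉) (fun _ => ⌈ρ⌉)).filter fun z => len z < ρ

theorem mem_bal (ρ : ℝ) (z : Site) : z ∈ bal ρ ↔ len z < ρ := by
  classical
  unfold bal
  rw [Finset.mem_filter]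
  refine ⟨fun h => h.2, fun h => ⟨?_, h⟩⟩
  rw [Finset.mem_Icc]
  have h1 : ∀ i, |(z i : ℝ)| ≤ ⌈ρ⌉ := fun i =>
    ((abs_le_len z i).trans h.le).trans (Int.le_ceil ρ)
  constructor
  · intro i
    have := (abs_le.1 (h1 i)).1
    exact_mod_cast this
  · intro i
    have := (abs_le.1 (h1 i)).2
    exact_mod_cast this

/-- the sum of the squared norms over the ball -/
noncomputable def qq (t : ℕ) : ℝ := ∑ z ∈ bal (rad t), nsq z

theorem cube_le (t : ℕ) : rad t ^ 3 ≤ t := by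
  have hr := rad_nonneg t
  have h2 := rad_cube t
  have h3 : (1 : ℝ) ≤ 4 / 3 * Real.pi := by
    have := Real.pi_gt_three
    linarith
  have h4 : 0 ≤ rad t ^ 3 := by positivity
  nlinarith

theorem pow2_le (t : ℕ) : rad t ^ 2 ≤ (t : ℝ) ^ (2 / 3 : ℝ) := by
  have hr := rad_nonneg t
  have h5 : (rad t ^ 3) ^ (2 / 3 : ℝ) ≤ (t : ℝ) ^ (2 / 3 : ℝ) :=
    Real.rpow_le_rpow (by positivity) (cube_le t) (by norm_num)
  refine le_trans (le_of_eq ?_) h5
  rw [← Real.rpow_natCast, ← Real.rpow_natCast, ← Real.rpow_mul hr]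
  norm_num

theorem pow5_le (t : ℕ) : rad t ^ 5 ≤ (t : ℝ) ^ (5 / 3 : ℝ) := by
  have hr := rad_nonneg t
  have h5 : (rad t ^ 3) ^ (5 / 3 : ℝ) ≤ (t : ℝ) ^ (5 / 3 : ℝ) :=
    Real.rpow_le_rpow (by positivity) (cube_le t) (by norm_num)
  refine le_trans (le_of_eq ?_) h5
  rw [← Real.rpow_natCast, ← Real.rpow_natCast, ← Real.rpow_mul hr]
  norm_num

theorem le_pow5 (t : ℕ) : (t : ℝ) ^ (5 / 3 : ℝ) ≤ (5 : ℝ) ^ (5 / 3 : ℝ) * rad t ^ 5 := by
  have hr := rad_nonneg t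
  have h1 : (t : ℝ) ≤ 5 * rad t ^ 3 := by
    rw [← rad_cube t]
    have h3 : 4 / 3 * Real.pi ≤ 5 := by
      have := Real.pi_lt_d2
      linarith
    exact mul_le_mul_of_nonneg_right h3 (by positivity)
  have h5 : (t : ℝ) ^ (5 / 3 : ℝ) ≤ (5 * rad t ^ 3) ^ (5 / 3 : ℝ) :=
    Real.rpow_le_rpow (by positivity) h1 (by norm_num)
  refine le_trans h5 (le_of_eq ?_)
  rw [Real.mul_rpow (by norm_num) (by positivity), ← Real.rpow_natCast, ← Real.rpow_natCast,
    ← Real.rpow_mul hr]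
  norm_num

theorem pow92_le (t : ℕ) : rad t ^ 4 * Real.sqrt (rad t) ≤ (t : ℝ) ^ (3 / 2 : ℝ) := by
  have hr := rad_nonneg t
  have h5 : (rad t ^ 3) ^ (3 / 2 : ℝ) ≤ (t : ℝ) ^ (3 / 2 : ℝ) :=
    Real.rpow_le_rpow (by positivity) (cube_le t) (by norm_num)
  refine le_trans (le_of_eq ?_) h5
  rw [Real.sqrt_eq_rpow, ← Real.rpow_natCast, ← Real.rpow_natCast, ← Real.rpow_mul hr]
  rcases hr.eq_or_lt with h | h
  · rw [← h, Real.zero_rpow (by norm_num), Real.zero_rpow (by norm_num), Real.zero_rpow (by norm_num)]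
    ring
  · rw [← Real.rpow_add h]
    norm_num

theorem q_upper (hL : S_LAT) (t : ℕ) (h1 : 1 ≤ rad t) : qq t ≤ 32 / 3 * Real.pi * rad t ^ 5 := by
  have hr := rad_nonneg t
  have h2 : qq t ≤ ∑ z ∈ bal (rad t), rad t ^ 2 := by
    refine Finset.sum_le_sum fun z hz => ?_
    rw [← len_sq]
    exact pow_le_pow_left₀ (len_nonneg z) ((mem_bal _ _).1 hz).le 2
  rw [Finset.sum_const, nsmul_eq_mul] at h2
  have h3 := hL.2 (bal (rad t)) (rad t) hr fun z hz => (mem_bal _ _).1 hz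
  have h4 := cube_up (rad t) 1 zero_le_one h1
  have h5 : (rad t + 1) ^ 3 ≤ 8 * rad t ^ 3 := by
    have h6 : rad t ^ 2 ≤ rad t ^ 3 := pow_le_pow_right₀ h1 (by norm_num)
    linarith
  have hpi := Real.pi_pos
  have h7 : ((bal (rad t)).card : ℝ) ≤ 4 / 3 * Real.pi * (8 * rad t ^ 3) :=
    h3.trans (mul_le_mul_of_nonneg_left h5 (by positivity))
  have h8 : ((bal (rad t)).card : ℝ) * rad t ^ 2 ≤ 4 / 3 * Real.pi * (8 * rad t ^ 3) * rad t ^ 2 :=
    mul_le_mul_of_nonneg_right h7 (by positivity)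
  have h9 : 4 / 3 * Real.pi * (8 * rad t ^ 3) * rad t ^ 2 = 32 / 3 * Real.pi * rad t ^ 5 := by ring
  linarith

theorem q_lower (hL : S_LAT) (t : ℕ) (h1 : 20 ≤ rad t) : Real.pi / 12 * rad t ^ 5 ≤ qq t := by
  classical
  set r := rad t with hr
  have hr0 : 0 ≤ r := by linarith
  have hpi := Real.pi_pos
  have hsub : bal (r / 2) ⊆ bal r := by
    intro z hz
    rw [mem_bal] at hz ⊢
    linarith
  have h2 : ∑ z ∈ bal r \ bal (r / 2), (r / 2) ^ 2 ≤ qq t := by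
    refine (Finset.sum_le_sum fun z hz => ?_).trans
      (Finset.sum_le_sum_of_subset_of_nonneg Finset.sdiff_subset fun z _ _ => nsq_nonneg z)
    rw [Finset.mem_sdiff, mem_bal, mem_bal, not_lt] at hz
    rw [← len_sq]
    exact pow_le_pow_left₀ (by linarith) hz.2 2
  rw [Finset.sum_const, nsmul_eq_mul, Finset.card_sdiff_of_subset hsub,
    Nat.cast_sub (Finset.card_le_card hsub)] at h2
  have h3 := hL.1 (bal r) r (by linarith) fun z hz => (mem_bal _ _).2 hz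
  have h4 := hL.2 (bal (r / 2)) (r / 2) (by linarith) fun z hz => (mem_bal _ _).1 hz
  have h5 : r ^ 3 / 4 ≤ (r - 1) ^ 3 - (r / 2 + 1) ^ 3 := by
    have h6 : (19 / 20 * r) ^ 3 ≤ (r - 1) ^ 3 := pow_le_pow_left₀ (by linarith) (by linarith) 3
    have h7 : (r / 2 + 1) ^ 3 ≤ (11 / 20 * r) ^ 3 := pow_le_pow_left₀ (by linarith) (by linarith) 3
    have h8 : 0 ≤ r ^ 3 := by positivity
    have h9 : (19 / 20 * r) ^ 3 = 6859 / 8000 * r ^ 3 := by ring
    have h10 : (11 / 20 * r) ^ 3 = 1331 / 8000 * r ^ 3 := by ring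
    linarith
  have h6 : 4 / 3 * Real.pi * (r ^ 3 / 4) ≤ ((bal r).card : ℝ) - (bal (r / 2)).card := by
    have h7 := mul_le_mul_of_nonneg_left h5 (by positivity : 0 ≤ 4 / 3 * Real.pi)
    have h8 : 4 / 3 * Real.pi * ((r - 1) ^ 3 - (r / 2 + 1) ^ 3) =
      4 / 3 * Real.pi * (r - 1) ^ 3 - 4 / 3 * Real.pi * (r / 2 + 1) ^ 3 := by ring
    linarith
  have h7 := mul_le_mul_of_nonneg_right h6 (by positivity : 0 ≤ (r / 2) ^ 2)
  have h8 : 4 / 3 * Real.pi * (r ^ 3 / 4) * (r / 2) ^ 2 = Real.pi / 12 * r ^ 5 := by ring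
  linarith

theorem devO_nonempty (t : ℕ) (A : Finset Site) :
    {δ : ℝ | 0 ≤ δ ∧ ∀ z ∈ A, len z < rad t + δ}.Nonempty := by
  refine ⟨∑ z ∈ A, len z + 1, ?_, fun z hz => ?_⟩
  · have : 0 ≤ ∑ z ∈ A, len z := Finset.sum_nonneg fun z _ => Real.sqrt_nonneg _
    linarith
  · have h1 : len z ≤ ∑ z ∈ A, len z :=
      Finset.single_le_sum (f := len) (fun z _ => Real.sqrt_nonneg _) hz
    have := rad_nonneg t
    linarith

theorem main (hL : S_LAT) (t : ℕ) (h20 : 20 ≤ rad t) (A : Finset Site) (δ : ℝ) (hδ : 0 ≤ δ)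
    (hδr : δ ≤ Real.sqrt (rad t)) (hI : devI A t < δ) (hO : devO A t < δ) :
    (∀ x ∈ A, len x ≤ 2 * rad t) ∧
    |∑ x ∈ A, nsq x - qq t| ≤ 320 / 3 * Real.pi * (rad t ^ 4 * Real.sqrt (rad t)) ∧
    |(A.card : ℝ) - t| ≤ 320 / 3 * Real.pi * (δ + 1) * rad t ^ 2 := by
  classical
  have hcube := rad_cube t
  unfold qq
  obtain ⟨δ1, ⟨-, hA1⟩, hδ1⟩ := exists_lt_of_csInf_lt (s := {δ : ℝ | 0 ≤ δ ∧
    ∀ z : Site, len z < rad t - δ → z ∈ A}) ⟨rad t, rad_nonneg t, fun z hz => by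
      exfalso
      have := len_nonneg z
      linarith⟩ hI
  obtain ⟨δ2, ⟨-, hA2⟩, hδ2⟩ := exists_lt_of_csInf_lt (devO_nonempty t A) hO
  set r := rad t with hr
  set s := Real.sqrt r with hs
  have hr0 : 0 ≤ r := by linarith
  have hs2 : s ^ 2 = r := Real.sq_sqrt hr0
  have hs0 : 0 ≤ s := Real.sqrt_nonneg _
  have hs4 : 4 ≤ s := Real.le_sqrt_of_sq_le (by linarith)
  have hsr : 4 * s ≤ r := by nlinarith
  have hpi := Real.pi_pos
  have hin : ∀ z : Site, len z < r - δ → z ∈ A := fun z hz => hA1 z (by linarith)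
  have hout : ∀ z ∈ A, len z < r + δ := fun z hz => (hA2 z hz).trans (by linarith)
  -- the two counts
  have ha0 : 0 ≤ δ + 1 := by linarith
  have har : δ + 1 ≤ r := by linarith
  have hup : (r + δ + 1) ^ 3 ≤ r ^ 3 + 7 * (r ^ 2 * (δ + 1)) := by
    rw [add_assoc]
    exact cube_up r (δ + 1) ha0 har
  have hdn : r ^ 3 - 3 * r ^ 2 * (δ + 1) ≤ (r - δ - 1) ^ 3 := by
    rw [sub_sub]
    exact cube_down r (δ + 1) ha0 har
  have hc : (0 : ℝ) ≤ 4 / 3 * Real.pi := by positivity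
  have hup' : ∀ B : Finset Site, (∀ z ∈ B, len z < r + δ) →
      (B.card : ℝ) ≤ t + 28 / 3 * Real.pi * (r ^ 2 * (δ + 1)) := by
    intro B hB
    have h1 := hL.2 B (r + δ) (by linarith) hB
    have h2 := mul_le_mul_of_nonneg_left hup hc
    have h3 : 4 / 3 * Real.pi * (r ^ 3 + 7 * (r ^ 2 * (δ + 1))) =
      4 / 3 * Real.pi * r ^ 3 + 28 / 3 * Real.pi * (r ^ 2 * (δ + 1)) := by ring
    linarith
  have hdn' : ∀ B : Finset Site, (∀ z : Site, len z < r - δ → z ∈ B) →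
      t - 4 * Real.pi * (r ^ 2 * (δ + 1)) ≤ (B.card : ℝ) := by
    intro B hB
    have h1 := hL.1 B (r - δ) (by linarith) hB
    have h2 := mul_le_mul_of_nonneg_left hdn hc
    have h3 : 4 / 3 * Real.pi * (r ^ 3 - 3 * r ^ 2 * (δ + 1)) =
      4 / 3 * Real.pi * r ^ 3 - 4 * Real.pi * (r ^ 2 * (δ + 1)) := by ring
    linarith
  have hpos : 0 ≤ Real.pi * (r ^ 2 * (δ + 1)) := by positivity
  refine ⟨fun x hx => ?_, ?_, ?_⟩
  · have := hout x hx
    linarith
  · -- the shell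
    set Sh := bal (r + δ) \ bal (r - δ) with hSh
    have hsub : bal (r - δ) ⊆ bal (r + δ) := by
      intro z hz
      rw [mem_bal] at hz ⊢
      linarith
    have hcard : (Sh.card : ℝ) ≤ 40 / 3 * Real.pi * (r ^ 2 * (δ + 1)) := by
      rw [hSh, Finset.card_sdiff_of_subset hsub, Nat.cast_sub (Finset.card_le_card hsub)]
      have h1 := hup' (bal (r + δ)) fun z hz => (mem_bal _ _).1 hz
      have h2 := hdn' (bal (r - δ)) fun z hz => (mem_bal _ _).2 hz
      linarith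
    have hshell : ∀ D : Finset Site, D ⊆ Sh →
        ∑ z ∈ D, nsq z ≤ 4 * r ^ 2 * (40 / 3 * Real.pi * (r ^ 2 * (δ + 1))) := by
      intro D hD
      have h1 : ∑ z ∈ D, nsq z ≤ ∑ z ∈ D, 4 * r ^ 2 := by
        refine Finset.sum_le_sum fun z hz => ?_
        have h2 := hD hz
        rw [hSh, Finset.mem_sdiff, mem_bal, mem_bal] at h2
        rw [← len_sq]
        have h3 : len z ≤ 2 * r := by linarith [h2.1]
        have h4 := pow_le_pow_left₀ (len_nonneg z) h3 2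
        have h5 : (2 * r) ^ 2 = 4 * r ^ 2 := by ring
        linarith
      rw [Finset.sum_const, nsmul_eq_mul] at h1
      have h2 : (D.card : ℝ) ≤ Sh.card := by exact_mod_cast Finset.card_le_card hD
      have h3 : (D.card : ℝ) * (4 * r ^ 2) ≤
          40 / 3 * Real.pi * (r ^ 2 * (δ + 1)) * (4 * r ^ 2) :=
        mul_le_mul_of_nonneg_right (h2.trans hcard) (by positivity)
      linarith
    have h1 : A \ bal r ⊆ Sh := by
      intro z hz
      rw [Finset.mem_sdiff, mem_bal] at hz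
      rw [hSh, Finset.mem_sdiff, mem_bal, mem_bal]
      exact ⟨hout z hz.1, fun h => hz.2 (by linarith)⟩
    have h2 : bal r \ A ⊆ Sh := by
      intro z hz
      rw [Finset.mem_sdiff, mem_bal] at hz
      rw [hSh, Finset.mem_sdiff, mem_bal, mem_bal]
      exact ⟨by linarith [hz.1], fun h => hz.2 (hin z h)⟩
    have h3 := hshell _ h1
    have h4 := hshell _ h2
    have h5 : 0 ≤ ∑ z ∈ A \ bal r, nsq z := Finset.sum_nonneg fun z _ => nsq_nonneg z
    have h6 : 0 ≤ ∑ z ∈ bal r \ A, nsq z := Finset.sum_nonneg fun z _ => nsq_nonneg z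
    have h7 : ∑ z ∈ A \ bal r, nsq z - ∑ z ∈ bal r \ A, nsq z =
        ∑ x ∈ A, nsq x - ∑ z ∈ bal r, nsq z := Finset.sum_sdiff_sub_sum_sdiff
    have h8 : 4 * r ^ 2 * (40 / 3 * Real.pi * (r ^ 2 * (δ + 1))) ≤
        320 / 3 * Real.pi * (r ^ 4 * s) := by
      have h9 : δ + 1 ≤ 2 * s := by linarith
      have h10 : 4 * r ^ 2 * (40 / 3 * Real.pi * (r ^ 2 * (δ + 1))) =
        160 / 3 * Real.pi * r ^ 4 * (δ + 1) := by ring
      have h11 := mul_le_mul_of_nonneg_left h9 (by positivity : 0 ≤ 160 / 3 * Real.pi * r ^ 4)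
      have h12 : 160 / 3 * Real.pi * r ^ 4 * (2 * s) = 320 / 3 * Real.pi * (r ^ 4 * s) := by ring
      linarith
    rw [← h7, abs_le]
    constructor <;> linarith
  · have h1 := hup' A hout
    have h2 := hdn' A hin
    have h3 : 320 / 3 * Real.pi * (δ + 1) * r ^ 2 = 320 / 3 * (Real.pi * (r ^ 2 * (δ + 1))) := by ring
    have h4 : 28 / 3 * Real.pi * (r ^ 2 * (δ + 1)) = 28 / 3 * (Real.pi * (r ^ 2 * (δ + 1))) := by ring
    have h5 : 4 * Real.pi * (r ^ 2 * (δ + 1)) = 4 * (Real.pi * (r ^ 2 * (δ + 1))) := by ring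
    rw [abs_le]
    constructor <;> linarith

theorem t_SHELL (hL : S_LAT) : S_SHELL := by
  have hpi := Real.pi_pos
  have h5 : (0 : ℝ) < (5 : ℝ) ^ (5 / 3 : ℝ) := by positivity
  refine ⟨qq, Real.pi / 12 / (5 : ℝ) ^ (5 / 3 : ℝ), 320 / 3 * Real.pi, by positivity, by positivity,
    ?_, ?_⟩
  · filter_upwards [rad_tendsto.eventually_ge_atTop 20] with t ht
    constructor
    · refine le_trans ?_ (q_lower hL t ht)
      have h6 := mul_le_mul_of_nonneg_left (le_pow5 t)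
        (by positivity : 0 ≤ Real.pi / 12 / (5 : ℝ) ^ (5 / 3 : ℝ))
      refine h6.trans (le_of_eq ?_)
      field_simp
    · have h1 := q_upper hL t (by linarith)
      have h2 := pow5_le t
      have h3 := mul_le_mul_of_nonneg_left h2 (by positivity : 0 ≤ 32 / 3 * Real.pi)
      have h4 : 0 ≤ Real.pi * (t : ℝ) ^ (5 / 3 : ℝ) := by positivity
      nlinarith
  · filter_upwards [rad_tendsto.eventually_ge_atTop 20] with t ht A δ hδ hδr hI hO
    obtain ⟨h1, h2, h3⟩ := main hL t ht A δ hδ hδr hI hO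
    refine ⟨h1, h2.trans ?_, h3.trans ?_⟩
    · exact mul_le_mul_of_nonneg_left (pow92_le t) (by positivity)
    · exact mul_le_mul_of_nonneg_left (pow2_le t) (by positivity)

end Pool.Agent.K1H29.BI
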