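import Pool.Agent.K1H53.BI.Plan4

/-!
Task BI4-MKV: the Markov property at the launches.
-/

set_option autoImplicit false

open scoped ENNReal
open Finset

namespace Pool.Agent.K1H29.BI.Mkv

open Pool.Agent.K1H53.BI

/-- more launches to come -/
def sh (j : ℕ) (s : St) : St := ⟨s.A, s.L, s.m + j⟩

theorem put_sh (j : ℕ) (s : St) (y : V) : put (sh j s) y = sh j (put s y) := by
  unfold put sh
  by_cases h : y ∈ s.A
  · simp only [h, if_true]
  · simp only [h, if_false]

theorem children_sh (x : V) (f : St → ℝ≥0∞) (j : ℕ) (k : ℕ) : ∀ s : St,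
    Ex (children x k (sh j s)) f = Ex (children x k s) (fun s' => f (sh j s')) := by
  induction k with
  | zero =>
    intro s
    unfold children
    rw [Ex_pure, Ex_pure]
  | succ k ih =>
    intro s
    unfold children
    rw [Ex_bind, Ex_bind]
    apply Ex_congr
    intro e _
    rw [put_sh, ih]

theorem step_sh (ν : PMF ℕ) (f : St → ℝ≥0∞) (j : ℕ) (s : St) (hs : ¬ Fin' s) :
    Ex (step ν (sh j s)) f = Ex (step ν s) (fun s' => f (sh j s')) := by
  by_cases h : s.L = []
  · have hm : s.m ≠ 0 := fun h0 => hs ⟨h, h0⟩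
    have h1 : step ν s = PMF.pure ⟨s.A, [0], s.m - 1⟩ := by
      unfold step
      rw [dif_pos h, if_neg hm]
    have h' : (sh j s).L = [] := h
    have hm' : (sh j s).m ≠ 0 := by
      show s.m + j ≠ 0
      omega
    have h2 : step ν (sh j s) = PMF.pure ⟨s.A, [0], s.m + j - 1⟩ := by
      unfold step
      rw [dif_pos h', if_neg hm']
      rfl
    rw [h1, h2, Ex_pure, Ex_pure]
    unfold sh
    congr 2
    show s.m + j - 1 = s.m - 1 + j
    omega
  · have h' : (sh j s).L ≠ [] := h
    unfold step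
    rw [dif_neg h, dif_neg h']
    rw [Ex_bind, Ex_bind]
    apply Ex_congr
    intro i _
    rw [Ex_bind, Ex_bind]
    apply Ex_congr
    intro k _
    exact children_sh _ f j k ⟨s.A, s.L.eraseIdx i, s.m⟩

theorem cauchy (f : ℕ → ℕ → ℝ≥0∞) :
    ∑' n, ∑ p ∈ antidiagonal n, f p.1 p.2 = ∑' k, ∑' m, f k m := by
  have h1 : ∑' k, ∑' m, f k m = ∑' p : ℕ × ℕ, f p.1 p.2 :=
    (ENNReal.tsum_prod (f := f)).symm
  rw [h1, ← Equiv.tsum_eq (Finset.HasAntidiagonal.sigmaAntidiagonalEquivProd (A := ℕ))
    (fun p : ℕ × ℕ => f p.1 p.2), ENNReal.tsum_sigma']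
  apply tsum_congr
  intro n
  exact (Finset.tsum_subtype (antidiagonal n) (fun p => f p.1 p.2)).symm

theorem Ex_sum {α ι : Type} (p : PMF α) (S : Finset ι) (g : ι → α → ℝ≥0∞) :
    Ex p (fun a => ∑ i ∈ S, g i a) = ∑ i ∈ S, Ex p (g i) := by
  classical
  induction S using Finset.induction_on with
  | empty => simp [Ex]
  | insert i S hi ih =>
    simp only [Finset.sum_insert hi]
    rw [Ex_add, ih]

theorem Ex_tsum {α ι : Type} (p : PMF α) (g : ι → α → ℝ≥0∞) :
    Ex p (fun a => ∑' i, g i a) = ∑' i, Ex p (g i) := by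
  unfold Ex
  rw [ENNReal.tsum_comm]
  apply tsum_congr
  intro a
  rw [ENNReal.tsum_mul_left]

theorem Ex_mul_const {α : Type} (p : PMF α) (c : ℝ≥0∞) (g : α → ℝ≥0∞) :
    Ex p (fun a => g a * c) = Ex p g * c := by
  simp only [mul_comm _ c]
  exact Ex_const_mul p c g

theorem conv (ν : PMF ℕ) (G : Finset V → Prop) (j : ℕ) (n : ℕ) : ∀ s : St,
    qq ν G n (sh j s) = ∑ p ∈ antidiagonal n,
      ∑' B : Finset V, qq ν (fun C => C = B) p.1 s * qq ν G p.2 ⟨B, [], j⟩ := by
  classical
  induction n with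
  | zero =>
    intro s
    rw [Finset.Nat.antidiagonal_zero, Finset.sum_singleton]
    by_cases hs : Fin' s
    · obtain ⟨h1, h2⟩ := hs
      have h3 : ∀ B, qq ν (fun C => C = B) 0 s = if s.A = B then 1 else 0 := by
        intro B
        unfold qq ind
        by_cases hB : s.A = B
        · rw [if_pos ⟨⟨h1, h2⟩, hB⟩, if_pos hB]
        · rw [if_neg (fun h => hB h.2), if_neg hB]
      rw [tsum_eq_single s.A]
      · rw [h3, if_pos rfl, one_mul]
        have h4 : sh j s = ⟨s.A, [], j⟩ := by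
          unfold sh
          rw [h1, h2, Nat.zero_add]
        rw [h4]
      · intro B hB
        rw [h3, if_neg (fun h => hB h.symm), zero_mul]
    · have h3 : ∀ B, qq ν (fun C => C = B) 0 s = 0 := by
        intro B
        unfold qq ind
        rw [if_neg (fun h => hs h.1)]
      have h4 : qq ν G 0 (sh j s) = 0 := by
        unfold qq ind
        rw [if_neg]
        rintro ⟨⟨h5, h6⟩, _⟩
        apply hs
        refine ⟨h5, ?_⟩
        have : s.m + j = 0 := h6
        omega
      rw [h4]
      symm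
      rw [ENNReal.tsum_eq_zero]
      intro B
      rw [h3, zero_mul]
  | succ n ih =>
    intro s
    rw [Finset.Nat.sum_antidiagonal_succ]
    by_cases hs : Fin' s
    · obtain ⟨h1, h2⟩ := hs
      have h3 : ∀ B, qq ν (fun C => C = B) 0 s = if s.A = B then 1 else 0 := by
        intro B
        unfold qq ind
        by_cases hB : s.A = B
        · rw [if_pos ⟨⟨h1, h2⟩, hB⟩, if_pos hB]
        · rw [if_neg (fun h => hB h.2), if_neg hB]
      have h5 : ∀ (B : Finset V) (k : ℕ), qq ν (fun C => C = B) (k + 1) s = 0 := by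
        intro B k
        conv_lhs => unfold qq
        rw [if_pos ⟨h1, h2⟩]
      have h6 : ∑ p ∈ antidiagonal n, ∑' B : Finset V,
          qq ν (fun C => C = B) (p.1 + 1) s * qq ν G p.2 ⟨B, [], j⟩ = 0 := by
        apply Finset.sum_eq_zero
        intro p _
        rw [ENNReal.tsum_eq_zero]
        intro B
        rw [h5, zero_mul]
      rw [h6, add_zero, tsum_eq_single s.A]
      · rw [h3, if_pos rfl, one_mul]
        have h4 : sh j s = ⟨s.A, [], j⟩ := by
          unfold sh
          rw [h1, h2, Nat.zero_add]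
        rw [h4]
      · intro B hB
        rw [h3, if_neg (fun h => hB h.symm), zero_mul]
    · have h3 : ∀ B, qq ν (fun C => C = B) 0 s = 0 := by
        intro B
        unfold qq ind
        rw [if_neg (fun h => hs h.1)]
      have h7 : ∑' B : Finset V, qq ν (fun C => C = B) 0 s * qq ν G (n + 1) ⟨B, [], j⟩ = 0 := by
        rw [ENNReal.tsum_eq_zero]
        intro B
        rw [h3, zero_mul]
      rw [h7, zero_add]
      have h8 : ¬ Fin' (sh j s) := by
        rintro ⟨h5, h6⟩
        apply hs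
        refine ⟨h5, ?_⟩
        have : s.m + j = 0 := h6
        omega
      have h9 : qq ν G (n + 1) (sh j s) = Ex (step ν (sh j s)) (qq ν G n) := by
        conv_lhs => unfold qq
        rw [if_neg h8]
      rw [h9, step_sh ν _ j s hs]
      simp only [ih]
      rw [Ex_sum]
      apply Finset.sum_congr rfl
      intro p _
      rw [Ex_tsum]
      apply tsum_congr
      intro B
      rw [Ex_mul_const]
      congr 1
      symm
      conv_lhs => unfold qq
      rw [if_neg hs]

theorem t_MKV (hQP : S_QP) : S_MKV := by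
  intro ν G A m j
  have h1 : (⟨A, [], m + j⟩ : St) = sh j ⟨A, [], m⟩ := rfl
  have hQP' : ∀ (ν : PMF ℕ) (G : Finset V → Prop) (s : St), Phi ν G s = ∑' n, qq ν G n s := hQP
  rw [h1, hQP']
  simp only [hQP', conv]
  rw [cauchy (fun k l => ∑' B : Finset V, qq ν (fun C => C = B) k ⟨A, [], m⟩ *
    qq ν G l ⟨B, [], j⟩)]
  simp only [← ENNReal.tsum_mul_left, ← ENNReal.tsum_mul_right]
  have h2 : ∀ k : ℕ, ∑' l : ℕ, ∑' B : Finset V, qq ν (fun C => C = B) k ⟨A, [], m⟩ *
      qq ν G l ⟨B, [], j⟩ = ∑' B : Finset V, ∑' l : ℕ, qq ν (fun C => C = B) k ⟨A, [], m⟩ *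
      qq ν G l ⟨B, [], j⟩ := fun k => ENNReal.tsum_comm
  simp only [h2]
  rw [ENNReal.tsum_comm]
  apply tsum_congr
  intro B
  rw [ENNReal.tsum_comm]

end Pool.Agent.K1H29.BI.Mkv
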